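import Pool.Agent.BEL.StmtsP

/-!
# Squad BEL (MP_be01ff_an), row BMP: disjoint bumps
-/

namespace Pool.Agent.BEL.H22

open Set Filter Topology MeasureTheory
open scoped InnerProductSpace ENNReal
open Pool.Agent.BE01

variable {d : ℕ}

/-- The scaled bump. -/
noncomputable def sc (φ : En d → ℝ) (c : En d) (δ : ℝ) : En d → ℝ := fun x => φ (δ⁻¹ • (x - c))

theorem fderiv_sc {φ : En d → ℝ} (hφ : ContDiff ℝ ((⊤ : ℕ∞) : WithTop ℕ∞) φ) (c : En d) (δ : ℝ)
    (x : En d) : fderiv ℝ (sc φ c δ) x = δ⁻¹ • fderiv ℝ φ (δ⁻¹ • (x - c)) := by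
  have h1 : HasFDerivAt (fun x : En d => δ⁻¹ • (x - c)) (δ⁻¹ • ContinuousLinearMap.id ℝ (En d)) x :=
    ((hasFDerivAt_id x).sub_const c).const_smul δ⁻¹
  have h2 : HasFDerivAt φ (fderiv ℝ φ (δ⁻¹ • (x - c))) (δ⁻¹ • (x - c)) :=
    ((hφ.differentiable (by simp)) _).hasFDerivAt
  have h3 := (h2.comp x h1).fderiv
  have h4 : fderiv ℝ (sc φ c δ) x =
      (fderiv ℝ φ (δ⁻¹ • (x - c))).comp (δ⁻¹ • ContinuousLinearMap.id ℝ (En d)) := h3
  rw [h4]
  ext v
  simp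

theorem norm_gradient_sc {φ : En d → ℝ} (hφ : ContDiff ℝ ((⊤ : ℕ∞) : WithTop ℕ∞) φ) (c : En d)
    (δ : ℝ) (x : En d) :
    ‖gradient (sc φ c δ) x‖ ^ 2 = δ⁻¹ ^ 2 * ‖fderiv ℝ φ (δ⁻¹ • (x - c))‖ ^ 2 := by
  rw [gradient, LinearIsometryEquiv.norm_map, fderiv_sc hφ, norm_smul, mul_pow, Real.norm_eq_abs,
    sq_abs]

theorem sc_eq_zero {φ : En d → ℝ} {ρ : ℝ} (hφ : ∀ x, ρ < ‖x‖ → φ x = 0) (c : En d) {δ : ℝ}
    (hδ : 0 < δ) {x : En d} (hx : δ * ρ < ‖x - c‖) : sc φ c δ x = 0 := by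
  apply hφ
  rw [norm_smul, Real.norm_eq_abs, abs_of_pos (inv_pos.2 hδ), inv_mul_eq_div, lt_div_iff₀ hδ]
  linarith

theorem tsupport_sc {φ : En d → ℝ} {ρ : ℝ} (hφ : ∀ x, ρ < ‖x‖ → φ x = 0) (c : En d) {δ : ℝ}
    (hδ : 0 < δ) : tsupport (sc φ c δ) ⊆ Metric.closedBall c (δ * ρ) := by
  apply closure_minimal _ Metric.isClosed_closedBall
  intro x hx
  rw [mem_closedBall_iff_norm]
  by_contra h
  exact hx (sc_eq_zero hφ c hδ (not_le.1 h))

theorem integral_sc (F : En d → ℝ) (c : En d) (δ : ℝ) :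
    ∫ x, F (δ⁻¹ • (x - c)) = |(δ⁻¹ ^ Module.finrank ℝ (En d))⁻¹| * ∫ x, F x := by
  have h1 : ∫ x, F (δ⁻¹ • (x - c)) = ∫ x, F (δ⁻¹ • x) :=
    integral_sub_right_eq_self (fun x => F (δ⁻¹ • x)) c
  rw [h1, Measure.integral_comp_smul, smul_eq_mul]

/-- ROW BMP -/
theorem bmp : BmpStmt := by
  classical
  rintro d Ω hd ⟨hO, -, x₀, hx₀⟩
  obtain ⟨R, hR, hball⟩ := Metric.isOpen_iff.1 hO x₀ hx₀
  let f : ContDiffBump (0 : En d) := ⟨1 / 4, 1 / 3, by norm_num, by norm_num⟩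
  have hf : ContDiff ℝ ((⊤ : ℕ∞) : WithTop ℕ∞) f := f.contDiff
  have hfs : HasCompactSupport f := f.hasCompactSupport
  have hf0 : ∀ x : En d, 1 / 3 < ‖x‖ → f x = 0 := by
    intro x hx
    by_contra h
    have h1 : x ∈ Function.support f := h
    rw [f.support_eq, mem_ball_zero_iff] at h1
    exact absurd h1 (not_lt.2 hx.le)
  have hB0 : 0 < ∫ x : En d, f x ^ 2 := by
    refine Continuous.integral_pos_of_hasCompactSupport_nonneg_nonzero (x := 0)
      (f.continuous.pow 2) (hfs.comp_left (g := fun t : ℝ => t ^ 2) (by norm_num))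
      (fun x => sq_nonneg _) ?_
    have h1 : f (0 : En d) = 1 := f.one_of_mem_closedBall (Metric.mem_closedBall_self (by norm_num))
    rw [h1]
    norm_num
  have hB1 : 0 ≤ ∫ x : En d, ‖fderiv ℝ f x‖ ^ 2 := integral_nonneg fun x => sq_nonneg _
  have hdR : (0 : ℝ) < d := Nat.cast_pos.2 hd
  refine ⟨(4 * d / R) ^ 2 * ((∫ x : En d, ‖fderiv ℝ f x‖ ^ 2) / ∫ x : En d, f x ^ 2) + 1,
    by positivity, ?_⟩
  intro n hn
  have hn1 : (1 : ℝ) ≤ n := by exact_mod_cast hn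
  have hnp : (0 : ℝ) < n := by linarith
  let m : ℕ := ⌈(n : ℝ) ^ (1 / (d : ℝ))⌉₊
  have hm1 : (n : ℝ) ^ (1 / (d : ℝ)) ≤ m := Nat.le_ceil _
  have hone : (1 : ℝ) ≤ (n : ℝ) ^ (1 / (d : ℝ)) := Real.one_le_rpow hn1 (by positivity)
  have hm2 : (m : ℝ) ≤ 2 * (n : ℝ) ^ (1 / (d : ℝ)) := by
    have h1 := Nat.ceil_lt_add_one (a := (n : ℝ) ^ (1 / (d : ℝ))) (by positivity)
    linarith
  have hm0 : (0 : ℝ) < m := by linarith
  have hmn : n ≤ m ^ d := by
    have h1 : ((n : ℝ) ^ (1 / (d : ℝ))) ^ (d : ℕ) = n := by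
      rw [← Real.rpow_natCast, ← Real.rpow_mul hnp.le, one_div_mul_cancel hdR.ne', Real.rpow_one]
    have h2 : ((n : ℝ) ^ (1 / (d : ℝ))) ^ (d : ℕ) ≤ (m : ℝ) ^ d :=
      pow_le_pow_left₀ (by positivity) hm1 d
    rw [h1] at h2
    exact_mod_cast h2
  have hsq : (m : ℝ) ^ 2 ≤ 4 * (n : ℝ) ^ (2 / (d : ℝ)) := by
    have h1 : (n : ℝ) ^ (2 / (d : ℝ)) = ((n : ℝ) ^ (1 / (d : ℝ))) ^ (2 : ℕ) := by
      rw [← Real.rpow_natCast, ← Real.rpow_mul hnp.le]
      congr 1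
      push_cast
      ring
    rw [h1]
    nlinarith
  obtain ⟨ε⟩ : Nonempty (Fin n ↪ (Fin d → Fin m)) := by
    apply Function.Embedding.nonempty_of_card_le
    rw [Fintype.card_fin, Fintype.card_pi_const, Fintype.card_fin]
    exact hmn
  let δ : ℝ := R / (2 * d * m)
  have hδ : 0 < δ := by positivity
  have hδm : δ * m * d = R / 2 := by
    simp only [δ]
    field_simp
  have hm1' : (1 : ℝ) ≤ m := by linarith
  have hd1 : (1 : ℝ) ≤ d := by exact_mod_cast hd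
  let c : Fin n → En d := fun i => x₀ + δ • (WithLp.toLp 2 fun l => ((ε i l : ℕ) : ℝ))
  have hcn : ∀ i, ‖c i - x₀‖ ≤ R / 2 := by
    intro i
    have h1 : c i - x₀ = δ • (WithLp.toLp 2 fun l => ((ε i l : ℕ) : ℝ)) := by
      simp only [c]
      abel
    rw [h1, norm_smul, Real.norm_eq_abs, abs_of_pos hδ]
    have h2 : ‖(WithLp.toLp 2 fun l => ((ε i l : ℕ) : ℝ) : En d)‖ ≤ m * d := by
      rw [EuclideanSpace.norm_eq]
      apply Real.sqrt_le_iff.2
      refine ⟨by positivity, ?_⟩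
      have h3 : ∀ l : Fin d, ‖((WithLp.toLp 2 fun l => ((ε i l : ℕ) : ℝ) : En d)) l‖ ^ 2 ≤
          (m : ℝ) ^ 2 := by
        intro l
        change ‖(((ε i l : ℕ) : ℝ))‖ ^ 2 ≤ (m : ℝ) ^ 2
        rw [Real.norm_natCast]
        apply pow_le_pow_left₀ (by positivity)
        exact_mod_cast (ε i l).2.le
      refine (Finset.sum_le_sum fun l _ => h3 l).trans ?_
      rw [Finset.sum_const, Finset.card_univ, Fintype.card_fin, nsmul_eq_mul]
      nlinarith [mul_le_mul_of_nonneg_left hd1 (mul_nonneg hdR.le (sq_nonneg (m : ℝ)))]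
    calc δ * ‖(WithLp.toLp 2 fun l => ((ε i l : ℕ) : ℝ) : En d)‖ ≤ δ * (m * d) :=
          mul_le_mul_of_nonneg_left h2 hδ.le
      _ = R / 2 := by rw [← mul_assoc]; exact hδm
  have hcd : ∀ i j, i ≠ j → δ ≤ ‖c i - c j‖ := by
    intro i j hij
    obtain ⟨l, hl⟩ : ∃ l, ε i l ≠ ε j l := by
      by_contra h
      push Not at h
      exact hij (ε.injective (funext h))
    have h1 : ‖(c i - c j) l‖ ≤ ‖c i - c j‖ := PiLp.norm_apply_le _ l
    refine le_trans ?_ h1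
    have h2 : (c i - c j) l = δ * (((ε i l : ℕ) : ℝ) - ((ε j l : ℕ) : ℝ)) := by
      simp only [c, PiLp.sub_apply, PiLp.add_apply, PiLp.smul_apply, smul_eq_mul]
      ring
    rw [h2, norm_mul, Real.norm_eq_abs, abs_of_pos hδ, Real.norm_eq_abs]
    have h3 : (1 : ℝ) ≤ |((ε i l : ℕ) : ℝ) - ((ε j l : ℕ) : ℝ)| := by
      have h4 : ((ε i l : ℕ) : ℤ) - ((ε j l : ℕ) : ℤ) ≠ 0 := by
        intro h
        apply hl
        apply Fin.ext
        omega
      have h5 := Int.one_le_abs h4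
      exact_mod_cast h5
    nlinarith
  have hδR : δ * (1 / 3) < R / 2 := by
    have h1 : δ ≤ R / 2 := by
      rw [← hδm]
      have : δ ≤ δ * m := le_mul_of_one_le_right hδ.le hm1'
      have : δ * m ≤ δ * m * d := le_mul_of_one_le_right (by positivity) hd1
      linarith
    linarith
  have hts : ∀ i, tsupport (sc f (c i) δ) ⊆ Ω := by
    intro i x hx
    apply hball
    have h1 := tsupport_sc hf0 (c i) hδ hx
    rw [mem_closedBall_iff_norm] at h1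
    rw [mem_ball_iff_norm]
    have h2 : x - x₀ = (x - c i) + (c i - x₀) := by abel
    rw [h2]
    refine (norm_add_le _ _).trans_lt ?_
    have := hcn i
    linarith
  have hTst : ∀ i, Tst Ω (sc f (c i) δ) := by
    intro i
    refine ⟨?_, ?_, hts i⟩
    · have h1 : ContDiff ℝ ((⊤ : ℕ∞) : WithTop ℕ∞) fun x : En d => x - c i :=
        contDiff_id.sub contDiff_const
      exact hf.comp (h1.const_smul δ⁻¹)
    · exact HasCompactSupport.of_support_subset_isCompact (isCompact_closedBall (c i) (δ * (1 / 3)))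
        ((subset_tsupport _).trans (tsupport_sc hf0 (c i) hδ))
  have hdisj : ∀ i j, i ≠ j → ∀ x, x ∉ tsupport (sc f (c i) δ) ∨ x ∉ tsupport (sc f (c j) δ) := by
    intro i j hij x
    by_contra h
    push Not at h
    have h1 := tsupport_sc hf0 (c i) hδ h.1
    have h2 := tsupport_sc hf0 (c j) hδ h.2
    rw [mem_closedBall_iff_norm] at h1 h2
    have h3 := hcd i j hij
    have h4 : c i - c j = (x - c j) - (x - c i) := by abel
    rw [h4] at h3
    have := norm_sub_le (x - c j) (x - c i)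
    linarith
  have hgr0 : ∀ i x, x ∉ tsupport (sc f (c i) δ) → gradient (sc f (c i) δ) x = 0 := by
    intro i x hx
    have h1 : fderiv ℝ (sc f (c i) δ) x = 0 := by
      by_contra h
      exact hx (support_fderiv_subset ℝ h)
    rw [gradient, h1, map_zero]
  have hint : ∀ i (F : En d → ℝ), (∀ x, x ∉ tsupport (sc f (c i) δ) → F x = 0) →
      ∫ x, F x ∂(mu Ω) = ∫ x, F x := by
    intro i F hF
    exact setIntegral_eq_integral_of_forall_compl_eq_zero fun x hx => hF x fun h => hx (hts i h)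
  have hI0 : ∀ i, ∫ x, sc f (c i) δ x ^ 2 ∂(mu Ω) =
      |(δ⁻¹ ^ Module.finrank ℝ (En d))⁻¹| * ∫ x : En d, f x ^ 2 := by
    intro i
    rw [hint i (fun x => sc f (c i) δ x ^ 2) (by
      intro x hx
      have h1 : sc f (c i) δ x = 0 := image_eq_zero_of_notMem_tsupport hx
      simp only [h1]
      norm_num)]
    exact integral_sc (fun x => f x ^ 2) (c i) δ
  have hI1 : ∀ i, ∫ x, ‖gradient (sc f (c i) δ) x‖ ^ 2 ∂(mu Ω) =
      δ⁻¹ ^ 2 * (|(δ⁻¹ ^ Module.finrank ℝ (En d))⁻¹| * ∫ x : En d, ‖fderiv ℝ f x‖ ^ 2) := by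
    intro i
    rw [hint i (fun x => ‖gradient (sc f (c i) δ) x‖ ^ 2) (by
      intro x hx
      simp only [hgr0 i x hx, norm_zero]
      norm_num)]
    have h1 : (fun x => ‖gradient (sc f (c i) δ) x‖ ^ 2) =
        fun x => δ⁻¹ ^ 2 * ‖fderiv ℝ f (δ⁻¹ • (x - c i))‖ ^ 2 :=
      funext fun x => norm_gradient_sc hf (c i) δ x
    rw [h1, integral_const_mul, integral_sc (fun x => ‖fderiv ℝ f x‖ ^ 2) (c i) δ]
  have hA : 0 < |(δ⁻¹ ^ Module.finrank ℝ (En d))⁻¹| := by positivity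
  refine ⟨fun i => sc f (c i) δ, hTst, ?_, ?_, ?_, ?_⟩
  · intro i j hij x
    change sc f (c i) δ x * sc f (c j) δ x = 0
    rcases hdisj i j hij x with h | h
    · rw [image_eq_zero_of_notMem_tsupport h, zero_mul]
    · rw [image_eq_zero_of_notMem_tsupport h, mul_zero]
  · intro i j hij x
    rcases hdisj i j hij x with h | h
    · rw [hgr0 i x h, inner_zero_left]
    · rw [hgr0 j x h, inner_zero_right]
  · intro i
    rw [hI0]
    exact mul_pos hA hB0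
  · intro i
    rw [hI0, hI1]
    have h1 : δ⁻¹ ^ 2 ≤ (4 * d / R) ^ 2 * (n : ℝ) ^ (2 / (d : ℝ)) := by
      have h2 : δ⁻¹ = 2 * d * m / R := inv_div _ _
      rw [h2, div_pow, div_pow, mul_pow, mul_pow, mul_pow, div_mul_eq_mul_div]
      apply div_le_div_of_nonneg_right _ (by positivity)
      have h3 : (0 : ℝ) ≤ (d : ℝ) ^ 2 := by positivity
      nlinarith [mul_le_mul_of_nonneg_left hsq h3]
    have hnn : (0 : ℝ) ≤ (n : ℝ) ^ (2 / (d : ℝ)) := by positivity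
    calc δ⁻¹ ^ 2 * (|(δ⁻¹ ^ Module.finrank ℝ (En d))⁻¹| * ∫ x : En d, ‖fderiv ℝ f x‖ ^ 2)
        ≤ ((4 * d / R) ^ 2 * (n : ℝ) ^ (2 / (d : ℝ))) *
          (|(δ⁻¹ ^ Module.finrank ℝ (En d))⁻¹| * ∫ x : En d, ‖fderiv ℝ f x‖ ^ 2) :=
          mul_le_mul_of_nonneg_right h1 (mul_nonneg hA.le hB1)
      _ = ((4 * d / R) ^ 2 * ((∫ x : En d, ‖fderiv ℝ f x‖ ^ 2) / ∫ x : En d, f x ^ 2)) *
          (n : ℝ) ^ (2 / (d : ℝ)) *
          (|(δ⁻¹ ^ Module.finrank ℝ (En d))⁻¹| * ∫ x : En d, f x ^ 2) := by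
          field_simp
      _ ≤ _ := by
          apply mul_le_mul_of_nonneg_right _ (mul_nonneg hA.le hB0.le)
          apply mul_le_mul_of_nonneg_right _ hnn
          linarith

end Pool.Agent.BEL.H22
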